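import Mathlib

/-!
# Approximately isomorphic C*-algebras: definitions

All maps between C*-algebras are only assumed to be almost multiplicative, almost linear and so on
on the closed unit ball.  `AI φ ε` is the weak form (with `≤ ε` everywhere) of the notion of an
`ε`-isomorphism.
-/

set_option autoImplicit false

open scoped ComplexOrder InnerProductSpace

noncomputable section

namespace Pool.Agent.TH387.EI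

universe u

/-- `φ` is an `ε`-isomorphism, in the weak sense with `≤ ε` instead of `< ε`. -/
structure AI {A B : Type u} [NonUnitalCStarAlgebra A] [NonUnitalCStarAlgebra B] (φ : A → B)
    (ε : ℝ) : Prop where
  norm : ∀ x, ‖x‖ ≤ 1 → ‖φ x‖ ≤ 1
  lin : ∀ x y, ‖x‖ ≤ 1 → ‖y‖ ≤ 1 → ∀ l m : ℂ, ‖l‖ ≤ 1 → ‖m‖ ≤ 1 →
    ‖φ (l • x + m • y) - l • φ x - m • φ y‖ ≤ ε
  star : ∀ x, ‖x‖ ≤ 1 → ‖φ (star x) - star (φ x)‖ ≤ ε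
  mul : ∀ x y, ‖x‖ ≤ 1 → ‖y‖ ≤ 1 → ‖φ (x * y) - φ x * φ y‖ ≤ ε
  iso : ∀ x, ‖x‖ ≤ 1 → |‖x‖ - ‖φ x‖| ≤ ε
  surj : ∀ b, ‖b‖ ≤ 1 → ∃ x, ‖x‖ ≤ 1 ∧ ‖b - φ x‖ ≤ ε

section rep

variable {A : Type u} [NonUnitalCStarAlgebra A]
  {H : Type u} [NormedAddCommGroup H] [InnerProductSpace ℂ H] [CompleteSpace H]

/-- Kaplansky density for `B(H)`: every self-adjoint contraction of `H` is a strong limit of
self-adjoint contractions of the form `ρ a` with `a` in the unit ball. -/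
def Kap (ρ : A →⋆ₙₐ[ℂ] (H →L[ℂ] H)) : Prop :=
  ∀ T : H →L[ℂ] H, IsSelfAdjoint T → ‖T‖ ≤ 1 → ∀ (F : Finset H) (τ : ℝ), 0 < τ →
    ∃ a : A, IsSelfAdjoint a ∧ ‖a‖ ≤ 1 ∧ ∀ v ∈ F, ‖ρ a v - T v‖ ≤ τ

/-- `T` is in the bicommutant of the range of `ρ`. -/
def Bic (ρ : A →⋆ₙₐ[ℂ] (H →L[ℂ] H)) (T : H →L[ℂ] H) : Prop :=
  ∀ y : H →L[ℂ] H, (∀ a, y * ρ a = ρ a * y) → y * T = T * y

/-- `ρ` is nondegenerate. -/
def Nd (ρ : A →⋆ₙₐ[ℂ] (H →L[ℂ] H)) : Prop :=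
  ∀ v : H, (∀ a w, ⟪ρ a w, v⟫_ℂ = 0) → v = 0

end rep

/-- The hypotheses of the abstract theorem: `V` is a (nonlinear) map which almost preserves inner
products on the unit ball, has almost dense range, and almost intertwines all operators. -/
structure NW {H K : Type u} [NormedAddCommGroup H] [InnerProductSpace ℂ H] [CompleteSpace H]
    [NormedAddCommGroup K] [InnerProductSpace ℂ K] [CompleteSpace K] (V : H → K) (δ : ℝ) :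
    Prop where
  inner : ∀ η ζ, ‖η‖ ≤ 1 → ‖ζ‖ ≤ 1 → ‖⟪V η, V ζ⟫_ℂ - ⟪η, ζ⟫_ℂ‖ ≤ δ
  dense : ∀ k : K, ‖k‖ ≤ 1 → ∃ η, ‖η‖ ≤ 1 ∧ ‖V η - k‖ ≤ δ
  op : ∀ T : H →L[ℂ] H, ‖T‖ ≤ 1 → ∃ S : K →L[ℂ] K, ‖S‖ ≤ 2 ∧
    ∀ η ζ, ‖η‖ ≤ 1 → ‖ζ‖ ≤ 1 → ‖⟪V η, S (V ζ)⟫_ℂ - ⟪η, T ζ⟫_ℂ‖ ≤ δ

/-- `ρ` and `π ∘ φ` have almost the same vector functionals. -/
def Near {A B : Type u} [NonUnitalCStarAlgebra A] [NonUnitalCStarAlgebra B] (φ : A → B)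
    {H K : Type u} [NormedAddCommGroup H] [InnerProductSpace ℂ H] [CompleteSpace H]
    [NormedAddCommGroup K] [InnerProductSpace ℂ K] [CompleteSpace K]
    (ρ : A →⋆ₙₐ[ℂ] (H →L[ℂ] H)) (π : B →⋆ₙₐ[ℂ] (K →L[ℂ] K)) (ξ : H) (κ : K) (δ : ℝ) : Prop :=
  ∀ x, ‖x‖ ≤ 1 → ‖⟪ξ, ρ x ξ⟫_ℂ - ⟪κ, π (φ x) κ⟫_ℂ‖ ≤ δ

/-- The Kadison-Kastler distance of two sets of operators (meant for C*-subalgebras): the larger
of the two numbers `sup` over the unit ball of one of the distance to the other one. -/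
def dKK {H : Type u} [NormedAddCommGroup H] [InnerProductSpace ℂ H]
    (S T : Set (H →L[ℂ] H)) : ℝ :=
  max (sSup ((fun a => Metric.infDist a T) '' (S ∩ Metric.closedBall 0 1)))
    (sSup ((fun b => Metric.infDist b S) '' (T ∩ Metric.closedBall 0 1)))

/-- A positive functional of norm at most one, with the Kadison-Schwarz inequality. -/
structure PF {A : Type u} [NonUnitalCStarAlgebra A] (g : A → ℂ) : Prop where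
  add : ∀ x y, g (x + y) = g x + g y
  smul : ∀ (c : ℂ) x, g (c • x) = c * g x
  pos : ∀ x, 0 ≤ g (star x * x)
  cs : ∀ x, ‖g x‖ ^ 2 ≤ (g (star x * x)).re
  bound : ∀ x, ‖g x‖ ≤ ‖x‖

/-- `T` is in the commutant of `S`. -/
def Cm {H : Type u} [NormedAddCommGroup H] [InnerProductSpace ℂ H]
    (S : Set (H →L[ℂ] H)) (T : H →L[ℂ] H) : Prop := ∀ y ∈ S, y * T = T * y

/-- The linear map `W` is within `c` of `V` on the unit ball of `P`. -/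
def Good {H K : Type u} [NormedAddCommGroup H] [InnerProductSpace ℂ H]
    [NormedAddCommGroup K] [InnerProductSpace ℂ K] (V : H → K) (P : Submodule ℂ H)
    (W : P →ₗ[ℂ] K) (c : ℝ) : Prop :=
  ∀ η : P, ‖η‖ ≤ 1 → ‖W η - V η‖ ≤ c

/-! ### Statements of pieces that are used by other pieces -/

/-- J0: Kaplansky density for nondegenerate representations. -/
def KapBicP : Prop :=
  ∀ (A : Type u) [NonUnitalCStarAlgebra A] (H : Type u) [NormedAddCommGroup H]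
    [InnerProductSpace ℂ H] [CompleteSpace H] (ρ : A →⋆ₙₐ[ℂ] (H →L[ℂ] H)), Nd ρ →
    ∀ T : H →L[ℂ] H, Bic ρ T → IsSelfAdjoint T → ‖T‖ ≤ 1 → ∀ (F : Finset H) (τ : ℝ), 0 < τ →
    ∃ a : A, IsSelfAdjoint a ∧ ‖a‖ ≤ 1 ∧ ∀ v ∈ F, ‖ρ a v - T v‖ ≤ τ

/-- J2: excision of pure states. -/
def ExcisionP : Prop :=
  ∀ (A : Type u) [NonUnitalCStarAlgebra A] (H : Type u) [NormedAddCommGroup H]
    [InnerProductSpace ℂ H] [CompleteSpace H] (π : A →⋆ₙₐ[ℂ] (H →L[ℂ] H)), Kap π →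
    ∀ κ : H, ‖κ‖ = 1 → ∀ (F : Finset A) (τ : ℝ), 0 < τ →
    ∃ b : A, IsSelfAdjoint b ∧ ‖b‖ ≤ 1 ∧ 1 - τ ≤ ‖b‖ ∧
      ∀ x ∈ F, ‖b * x * b - ⟪κ, π x κ⟫_ℂ • (b * b)‖ ≤ τ

/-- J5a: approximate transitivity. -/
def KapVecP : Prop :=
  ∀ (A : Type u) [NonUnitalCStarAlgebra A] (H : Type u) [NormedAddCommGroup H]
    [InnerProductSpace ℂ H] [CompleteSpace H] (ρ : A →⋆ₙₐ[ℂ] (H →L[ℂ] H)), Kap ρ →
    ∀ ξ : H, ‖ξ‖ = 1 → ∀ η : H, ‖η‖ ≤ 1 → ∀ τ : ℝ, 0 < τ →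
    ∃ a : A, ‖a‖ ≤ 1 ∧ ‖ρ a ξ - (1 / 2 : ℂ) • η‖ ≤ τ

/-- J5b: weak limits. -/
def KapLimP : Prop :=
  ∀ (A B : Type u) [NonUnitalCStarAlgebra A] [NonUnitalCStarAlgebra B] (φ : A → B),
    (∀ x, ‖x‖ ≤ 1 → ‖φ x‖ ≤ 1) → ∀ (H K : Type u) [NormedAddCommGroup H]
    [InnerProductSpace ℂ H] [CompleteSpace H] [NormedAddCommGroup K] [InnerProductSpace ℂ K]
    [CompleteSpace K] (ρ : A →⋆ₙₐ[ℂ] (H →L[ℂ] H)), Kap ρ → ∀ (π : B →⋆ₙₐ[ℂ] (K →L[ℂ] K))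
    (T : H →L[ℂ] H), ‖T‖ ≤ 1 →
    ∃ S : K →L[ℂ] K, ‖S‖ ≤ 2 ∧ ∀ (v w : K) (p q : H) (c : ℂ) (r : ℝ),
      (∀ z : A, ‖z‖ ≤ 1 → ‖2 * ⟪v, π (φ z) w⟫_ℂ - 2 * c * ⟪p, ρ z q⟫_ℂ‖ ≤ r) →
      ‖⟪v, S w⟫_ℂ - c * ⟪p, T q⟫_ℂ‖ ≤ r

/-- J6a: almost invariant finite sets of unitaries. -/
def NetP : Prop :=
  ∀ (E : Type u) [NormedAddCommGroup E] [InnerProductSpace ℂ E] [FiniteDimensional ℂ E] (ρ : ℝ),
    0 < ρ → ∃ S : Finset (E ≃ₗᵢ[ℂ] E), S.Nonempty ∧ ∀ u : E ≃ₗᵢ[ℂ] E, ∃ σ : S ≃ S,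
    ∀ (s : S) (v : E), ‖u (s.1 v) - (σ s).1 v‖ ≤ ρ * ‖v‖

end Pool.Agent.TH387.EI
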