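import Pool.Agent.TH387.EI.Nu

set_option autoImplicit false

open scoped ComplexOrder InnerProductSpace

noncomputable section

namespace Pool.Agent.TH387.EI

universe u

section vec

variable {H : Type u} [NormedAddCommGroup H] [InnerProductSpace ℂ H] [CompleteSpace H]

theorem proj_inner {e : H →L[ℂ] H} (he : IsStarProjection e) (v w : H) :
    ⟪v, e w⟫_ℂ = ⟪e v, w⟫_ℂ := by
  have h1 : star e = e := he.isSelfAdjoint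
  rw [← ContinuousLinearMap.adjoint_inner_left, ← ContinuousLinearMap.star_eq_adjoint, h1]

theorem proj_idem {e : H →L[ℂ] H} (he : IsStarProjection e) (v : H) : e (e v) = e v := by
  have := he.isIdempotentElem
  have h1 : (e * e) v = e v := by rw [this]
  exact h1

theorem proj_self {e : H →L[ℂ] H} (he : IsStarProjection e) (v : H) :
    ⟪v, e v⟫_ℂ = ((‖e v‖ ^ 2 : ℝ) : ℂ) := by
  rw [← proj_idem he v, proj_inner he, proj_idem he, inner_self_eq_norm_sq_to_K]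
  push_cast
  rfl

end vec

section one

variable {A B : Type u} [NonUnitalCStarAlgebra A] [NonUnitalCStarAlgebra B]
  {H K : Type u} [NormedAddCommGroup H] [InnerProductSpace ℂ H] [CompleteSpace H]
  [NormedAddCommGroup K] [InnerProductSpace ℂ K] [CompleteSpace K]

theorem rep_le (ρ : A →⋆ₙₐ[ℂ] (H →L[ℂ] H)) (a : A) (v : H) : ‖ρ a v‖ ≤ ‖a‖ * ‖v‖ :=
  ((ρ a).le_opNorm v).trans
    (mul_le_mul_of_nonneg_right (NonUnitalStarAlgHom.norm_apply_le ρ a) (norm_nonneg v))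

/-- the estimate of `exists_x` for projections of the bicommutant -/
theorem est_proj (ρ : A →⋆ₙₐ[ℂ] (H →L[ℂ] H)) (hρ : Nd ρ) (ξ : H) (hξ : ‖ξ‖ ≤ 1)
    (x : H →L[ℂ] H) (hx1 : ‖x‖ ≤ 1) (s : ℝ)
    (h : ∀ a : A, ‖a‖ ≤ 1 → ‖x (ρ a ξ) - ⟪ξ, ρ a ξ⟫_ℂ • ξ‖ ≤ s)
    (e : H →L[ℂ] H) (he : IsStarProjection e) (heb : Bic ρ e) :
    ‖x (e ξ) - ⟪ξ, e ξ⟫_ℂ • ξ‖ ≤ s := by
  have he1 : ‖e‖ ≤ 1 := he.norm_le
  refine le_of_forall_pos_le_add fun τ hτ => ?_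
  obtain ⟨a, -, ha1, ha⟩ := kap_bic A H ρ hρ e heb he.isSelfAdjoint he1 {ξ} (τ / 2) (by positivity)
  have h1 := ha ξ (by simp)
  have h2 := h a ha1
  have e1 : x (e ξ) - ⟪ξ, e ξ⟫_ℂ • ξ = (x (ρ a ξ) - ⟪ξ, ρ a ξ⟫_ℂ • ξ) -
      (x (ρ a ξ - e ξ) - ⟪ξ, ρ a ξ - e ξ⟫_ℂ • ξ) := by
    rw [map_sub, inner_sub_right, sub_smul]
    abel
  rw [e1]
  have h3 : ‖x (ρ a ξ - e ξ)‖ ≤ τ / 2 := by
    refine (x.le_opNorm _).trans ?_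
    nlinarith [norm_nonneg (ρ a ξ - e ξ)]
  have h4 : ‖⟪ξ, ρ a ξ - e ξ⟫_ℂ • ξ‖ ≤ τ / 2 := by
    rw [norm_smul]
    have h5 := norm_inner_le_norm (𝕜 := ℂ) ξ (ρ a ξ - e ξ)
    have h6 : ‖⟪ξ, ρ a ξ - e ξ⟫_ℂ‖ ≤ τ / 2 := by
      refine h5.trans ?_
      nlinarith [norm_nonneg (ρ a ξ - e ξ), norm_nonneg ξ]
    nlinarith [norm_nonneg ξ, norm_nonneg ⟪ξ, ρ a ξ - e ξ⟫_ℂ]
  have h5 := norm_sub_le (x (ρ a ξ) - ⟪ξ, ρ a ξ⟫_ℂ • ξ)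
    (x (ρ a ξ - e ξ) - ⟪ξ, ρ a ξ - e ξ⟫_ℂ • ξ)
  have h6 := norm_sub_le (x (ρ a ξ - e ξ)) (⟪ξ, ρ a ξ - e ξ⟫_ℂ • ξ)
  linarith

/-- the commutant of the range -/
def CS (ρ : A →⋆ₙₐ[ℂ] (H →L[ℂ] H)) : Set (H →L[ℂ] H) := {y | ∀ a, y * ρ a = ρ a * y}

theorem CS_star (ρ : A →⋆ₙₐ[ℂ] (H →L[ℂ] H)) : ∀ y ∈ CS ρ, star y ∈ CS ρ := by
  intro y hy a
  have h1 := congrArg star (hy (star a))
  rw [star_mul, star_mul, ← map_star, star_star] at h1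
  exact h1.symm

theorem exists_pure (φ : A → B) (t : ℝ) (ht : 0 < t) (ht1 : t ≤ 1 / 1000) (hφ : AI φ (t ^ 32))
    (π : B →⋆ₙₐ[ℂ] (K →L[ℂ] K)) (hπ : Kap π) (κ : K) (hκ : ‖κ‖ = 1) :
    ∃ (H : Type u) (_ : NormedAddCommGroup H) (_ : InnerProductSpace ℂ H) (_ : CompleteSpace H)
      (ρ : A →⋆ₙₐ[ℂ] (H →L[ℂ] H)) (ξ : H), Kap ρ ∧ ‖ξ‖ = 1 ∧ Near φ ρ π ξ κ (21 * t ^ 2) := by
  have hε : 0 < t ^ 32 := by positivity
  have ht0 : t ≤ 1 := by linarith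
  have hp : ∀ m n : ℕ, m ≤ n → t ^ n ≤ t ^ m := fun m n h => pow_le_pow_of_le_one ht.le ht0 h
  have hp2 : t ^ 2 ≤ 1 / 1000000 := by nlinarith
  have hε1 : t ^ 32 ≤ 1 / 100 := by
    have := hp 2 32 (by norm_num)
    linarith
  have hsq : √(t ^ 32) = t ^ 16 := by
    rw [show t ^ 32 = (t ^ 16) ^ 2 by ring]
    exact Real.sqrt_sq (by positivity)
  -- a functional of `A`
  obtain ⟨g, hg, hgn⟩ := compact_pf (A := A) (fun x => ⟪κ, π (φ x) κ⟫_ℂ) (100 * √(t ^ 32))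
    (fun F hF => finite_state excision φ (t ^ 32) hε hε1 hφ π hπ κ hκ F hF)
  obtain ⟨H, _, _, _, ρ, ξ, hnd, hξ, hgρ⟩ := gns_of g hg
  have hN : Near φ ρ π ξ κ (100 * t ^ 16) := by
    intro x hx
    rw [hgρ, ← hsq]
    exact hgn x hx
  have h16 : t ^ 16 ≤ 1 / 1000000 := (hp 2 16 (by norm_num)).trans hp2
  obtain ⟨hξ2, x, hx, hx1, hxb, hxe⟩ := exists_x φ (t ^ 32) (100 * t ^ 16) hε (by linarith)
    (by positivity) (by linarith) hφ ρ ξ hξ π hπ κ hκ hN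
  have hs : 10 * √(t ^ 32 + 100 * t ^ 16) ≤ 101 * t ^ 8 := by
    have h1 : t ^ 32 + 100 * t ^ 16 ≤ (101 / 10 * t ^ 8) ^ 2 := by
      have := hp 16 32 (by norm_num)
      nlinarith [pow_pos ht 16, show (t ^ 8) ^ 2 = t ^ 16 by ring]
    have h2 := Real.sqrt_le_sqrt h1
    rw [Real.sqrt_sq (by positivity)] at h2
    linarith
  have hxe' : ∀ a : A, ‖a‖ ≤ 1 → ‖x (ρ a ξ) - ⟪ξ, ρ a ξ⟫_ℂ • ξ‖ ≤ 101 * t ^ 8 :=
    fun a ha => (hxe a ha).trans hs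
  have hest := est_proj ρ hnd ξ hξ x hx1 (101 * t ^ 8) hxe'
  have h4 : t ^ 4 ≤ 1 / 1000000 := (hp 2 4 (by norm_num)).trans hp2
  have h84 : t ^ 8 ≤ t ^ 4 * (1 / 1000000) := by
    have : t ^ 8 = t ^ 4 * t ^ 4 := by ring
    nlinarith [pow_pos ht 4]
  have hbx : Cm (CS ρ) x := fun y hy => hxb y hy
  obtain ⟨q, hq, hqS, hq1, hq2⟩ := exists_q (CS ρ) (CS_star ρ) x hx hx1 hbx (11 * t ^ 4)
    (by positivity) (by linarith)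
  -- `q ξ` is large
  have hξn : 1 - 101 * t ^ 16 ≤ ‖ξ‖ ^ 2 := by
    have := hp 16 32 (by norm_num)
    linarith
  have hone : IsStarProjection (1 : H →L[ℂ] H) := IsStarProjection.one _
  have hpy : ∀ {e : H →L[ℂ] H}, IsStarProjection e → ∀ v : H,
      ‖v‖ ^ 2 = ‖e v‖ ^ 2 + ‖v - e v‖ ^ 2 := by
    intro e he v
    have h1 : ⟪e v, v - e v⟫_ℂ = 0 := by
      rw [inner_sub_right, ← proj_inner he v v, proj_self he, inner_self_eq_norm_sq_to_K]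
      push_cast
      exact sub_self _
    have h2 := norm_add_sq_eq_norm_sq_add_norm_sq_of_inner_eq_zero (e v) (v - e v) h1
    rw [add_sub_cancel] at h2
    nlinarith [h2]
  have hle : ∀ {e : H →L[ℂ] H}, IsStarProjection e → ‖e ξ‖ ≤ 1 := by
    intro e he
    have h1 := hpy he ξ
    nlinarith [norm_nonneg (e ξ), norm_nonneg ξ, sq_nonneg ‖ξ - e ξ‖]
  have hx1ξ : ‖x ξ - ((‖ξ‖ ^ 2 : ℝ) : ℂ) • ξ‖ ≤ 101 * t ^ 8 := by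
    have h1 := hest 1 hone (fun y _ => by rw [mul_one, one_mul])
    have h2 := proj_self hone ξ
    rw [h2] at h1
    exact h1
  have hre : (⟪ξ, ξ - x ξ⟫_ℂ).re ≤ 101 * t ^ 16 + 101 * t ^ 8 := by
    have e1 : ξ - x ξ = (((1 - ‖ξ‖ ^ 2 : ℝ) : ℂ) • ξ) - (x ξ - ((‖ξ‖ ^ 2 : ℝ) : ℂ) • ξ) := by
      have : (((1 - ‖ξ‖ ^ 2 : ℝ) : ℂ) • ξ) = ξ - ((‖ξ‖ ^ 2 : ℝ) : ℂ) • ξ := by
        rw [Complex.ofReal_sub, sub_smul, Complex.ofReal_one, one_smul]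
      rw [this]
      abel
    rw [e1, inner_sub_right, Complex.sub_re, inner_smul_right, inner_self_eq_norm_sq_to_K]
    have h1 : (((1 - ‖ξ‖ ^ 2 : ℝ) : ℂ) * (‖ξ‖ : ℂ) ^ 2).re = (1 - ‖ξ‖ ^ 2) * ‖ξ‖ ^ 2 := by
      rw [← Complex.ofReal_pow, ← Complex.ofReal_mul, Complex.ofReal_re]
    have h1' : (((1 - ‖ξ‖ ^ 2 : ℝ) : ℂ) * ((‖ξ‖ : ℝ) : ℂ) ^ 2).re = (1 - ‖ξ‖ ^ 2) * ‖ξ‖ ^ 2 := h1
    have h2 := norm_inner_le_norm (𝕜 := ℂ) ξ (x ξ - ((‖ξ‖ ^ 2 : ℝ) : ℂ) • ξ)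
    have h3 := Complex.abs_re_le_norm ⟪ξ, x ξ - ((‖ξ‖ ^ 2 : ℝ) : ℂ) • ξ⟫_ℂ
    have h4 := abs_le.1 h3
    have h5 : ‖ξ‖ * ‖x ξ - ((‖ξ‖ ^ 2 : ℝ) : ℂ) • ξ‖ ≤ 101 * t ^ 8 := by
      nlinarith [norm_nonneg ξ, norm_nonneg (x ξ - ((‖ξ‖ ^ 2 : ℝ) : ℂ) • ξ)]
    have h6 : (1 - ‖ξ‖ ^ 2) * ‖ξ‖ ^ 2 ≤ 101 * t ^ 16 := by
      have h7 : ‖ξ‖ ^ 2 ≤ 1 := by nlinarith [norm_nonneg ξ]
      nlinarith [sq_nonneg ‖ξ‖]
    have h8 : (((1 - ‖ξ‖ ^ 2 : ℝ) : ℂ) * ((‖ξ‖ : ℝ) : ℂ) ^ 2).re ≤ 101 * t ^ 16 := h1'.trans_le h6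
    refine le_trans (sub_le_sub_right h8 _) ?_
    linarith [h4.1, h2]
  have hqξ : 1 / 2 ≤ ‖q ξ‖ ^ 2 := by
    have h1 := hpy hq ξ
    have h2 := (hq2 ξ).trans hre
    have h3 : t ^ 16 ≤ t ^ 4 * (1 / 1000000) :=
      (hp 8 16 (by norm_num)).trans h84
    have h5 : t ^ 4 * ‖ξ - q ξ‖ ^ 2 ≤ t ^ 4 * (1 / 1000) := by nlinarith
    have h6 : ‖ξ - q ξ‖ ^ 2 ≤ 1 / 1000 := le_of_mul_le_mul_left h5 (pow_pos ht 4)
    linarith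
  obtain ⟨e, he, he0, heS, heξ, hemin⟩ := exists_atom (CS ρ) (CS_star ρ) q hq hqS ξ hξ (11 * t ^ 4)
    (by positivity) (by linarith) hqξ (by
      intro e he heS hqe
      have h1 : q (e ξ) = e ξ := by
        have := congrArg (fun T : H →L[ℂ] H => T ξ) hqe
        exact this
      have h2 := hq1 (e ξ)
      rw [h1] at h2
      have h3 := hest e he (fun y hy => heS y hy)
      rw [proj_self he] at h3
      have h4 : ‖e ξ - ((‖e ξ‖ ^ 2 : ℝ) : ℂ) • ξ‖ ≤ 22 * t ^ 4 := by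
        have e1 : e ξ - ((‖e ξ‖ ^ 2 : ℝ) : ℂ) • ξ = (x (e ξ) - ((‖e ξ‖ ^ 2 : ℝ) : ℂ) • ξ) -
          (x (e ξ) - e ξ) := by abel
        rw [e1]
        have h5 := norm_sub_le (x (e ξ) - ((‖e ξ‖ ^ 2 : ℝ) : ℂ) • ξ) (x (e ξ) - e ξ)
        have h6 := hle he
        nlinarith [pow_pos ht 4]
      have h5 : ⟪e ξ, e ξ - ((‖e ξ‖ ^ 2 : ℝ) : ℂ) • ξ⟫_ℂ =
          ((‖e ξ‖ ^ 2 * (1 - ‖e ξ‖ ^ 2) : ℝ) : ℂ) := by
        rw [inner_sub_right, inner_smul_right, ← proj_inner he, proj_idem he, proj_self he,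
          ← inner_conj_symm (e ξ) ξ, proj_self he]
        simp only [Complex.conj_ofReal]
        push_cast
        ring
      have h6 := norm_inner_le_norm (𝕜 := ℂ) (e ξ) (e ξ - ((‖e ξ‖ ^ 2 : ℝ) : ℂ) • ξ)
      rw [h5, Complex.norm_real, Real.norm_eq_abs] at h6
      have h7 := le_abs_self (‖e ξ‖ ^ 2 * (1 - ‖e ξ‖ ^ 2))
      have h8 := hle he
      have h9 : ‖e ξ‖ * ‖e ξ - ((‖e ξ‖ ^ 2 : ℝ) : ℂ) • ξ‖ ≤ 22 * t ^ 4 := by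
        nlinarith [norm_nonneg (e ξ), norm_nonneg (e ξ - ((‖e ξ‖ ^ 2 : ℝ) : ℂ) • ξ)]
      linarith)
  have hmin := scalar_of_min (CS ρ) (CS_star ρ) e he heS hemin
  have hepos : 1 / 2 ≤ ‖e ξ‖ ^ 2 := by linarith
  have hene : 0 < ‖e ξ‖ := by
    rcases (norm_nonneg (e ξ)).eq_or_lt with h | h
    · rw [← h] at hepos; norm_num at hepos
    · exact h
  have hw1 : ‖((‖e ξ‖⁻¹ : ℝ) : ℂ) • e ξ‖ = 1 := by
    rw [norm_smul, Complex.norm_real, norm_inv, norm_norm]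
    exact inv_mul_cancel₀ hene.ne'
  obtain ⟨H', _, _, _, ρ', ξ', hk', hξ', hval⟩ := min_irr kap_bic ρ hnd e he
    (fun y hy => heS y hy) (fun T hT => hmin T (fun y hy => hT y hy))
    (((‖e ξ‖⁻¹ : ℝ) : ℂ) • e ξ) (by rw [map_smul, proj_idem he]) hw1
  refine ⟨H', _, _, _, ρ', ξ', hk', hξ', fun a ha => ?_⟩
  rw [hval]
  set w := ((‖e ξ‖⁻¹ : ℝ) : ℂ) • e ξ with hw
  have hwξ : ‖w - ξ‖ ≤ 10 * t ^ 2 := by
    have h1 : ‖w - ξ‖ ^ 2 ≤ (10 * t ^ 2) ^ 2 := by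
      rw [@norm_sub_sq ℂ, hw1]
      have h2 : RCLike.re ⟪w, ξ⟫_ℂ = ‖e ξ‖ := by
        rw [hw, inner_smul_left, ← inner_conj_symm (e ξ) ξ, proj_self he]
        simp only [Complex.conj_ofReal]
        rw [← Complex.ofReal_mul]
        change (((‖e ξ‖⁻¹ * ‖e ξ‖ ^ 2 : ℝ) : ℂ)).re = _
        rw [Complex.ofReal_re]
        field_simp
      rw [h2]
      have h3 : ‖ξ‖ ^ 2 ≤ 1 := by nlinarith [norm_nonneg ξ]
      have h4 : ‖e ξ‖ ^ 2 ≤ ‖e ξ‖ := by nlinarith [hle he]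
      nlinarith [pow_pos ht 4, show (10 * t ^ 2) ^ 2 = 100 * t ^ 4 by ring]
    exact (sq_le_sq₀ (norm_nonneg _) (by positivity)).1 h1
  have h1 := hN a ha
  have e1 : ⟪w, ρ a w⟫_ℂ - ⟪κ, π (φ a) κ⟫_ℂ = ⟪w, ρ a (w - ξ)⟫_ℂ + ⟪w - ξ, ρ a ξ⟫_ℂ +
      (⟪ξ, ρ a ξ⟫_ℂ - ⟪κ, π (φ a) κ⟫_ℂ) := by
    rw [map_sub, inner_sub_right, inner_sub_left]
    ring
  rw [e1]
  have h2 : ‖⟪w, ρ a (w - ξ)⟫_ℂ‖ ≤ 10 * t ^ 2 := by
    refine (norm_inner_le_norm _ _).trans ?_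
    rw [hw1, one_mul]
    refine (rep_le ρ a _).trans ?_
    nlinarith [norm_nonneg (w - ξ), norm_nonneg a]
  have h3 : ‖⟪w - ξ, ρ a ξ⟫_ℂ‖ ≤ 10 * t ^ 2 := by
    refine (norm_inner_le_norm _ _).trans ?_
    have h4 := rep_le ρ a ξ
    have h5 : ‖ρ a ξ‖ ≤ 1 := by
      refine h4.trans ?_
      nlinarith [norm_nonneg ξ, norm_nonneg a]
    nlinarith [norm_nonneg (w - ξ), norm_nonneg (ρ a ξ)]
  have h4 := norm_add_le (⟪w, ρ a (w - ξ)⟫_ℂ + ⟪w - ξ, ρ a ξ⟫_ℂ)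
    (⟪ξ, ρ a ξ⟫_ℂ - ⟪κ, π (φ a) κ⟫_ℂ)
  have h5 := norm_add_le (⟪w, ρ a (w - ξ)⟫_ℂ) (⟪w - ξ, ρ a ξ⟫_ℂ)
  have h6 : 100 * t ^ 16 ≤ t ^ 2 := by
    have h7 := hp 4 16 (by norm_num)
    have h8 : t ^ 4 = t ^ 2 * t ^ 2 := by ring
    nlinarith [pow_pos ht 2]
  linarith

/-- a unit vector -/
theorem exists_unit (π : B →⋆ₙₐ[ℂ] (K →L[ℂ] K)) (b : B) (hb : π b ≠ 0) : ∃ κ : K, ‖κ‖ = 1 := by
  by_contra h
  push Not at h
  apply hb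
  ext v
  have hv : v = 0 := by
    by_contra hv
    apply h (((‖v‖⁻¹ : ℝ) : ℂ) • v)
    rw [norm_smul, Complex.norm_real, norm_inv, norm_norm]
    exact inv_mul_cancel₀ (norm_ne_zero_iff.2 hv)
  rw [hv, map_zero, map_zero]

/-- representations of `A` near an irreducible representation of `B` -/
theorem one_rep (φ : A → B) (t : ℝ) (ht : 0 < t) (ht1 : t ≤ 1 / 10 ^ 9) (hφ : AI φ (t ^ 32))
    (π : B →⋆ₙₐ[ℂ] (K →L[ℂ] K)) (hπ : Kap π) (κ : K) (hκ : ‖κ‖ = 1) :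
    ∃ ρ : A →⋆ₙₐ[ℂ] (K →L[ℂ] K), ∀ a, ‖a‖ ≤ 1 → ‖ρ a - π (φ a)‖ ≤ 2 * 10 ^ 8 * t := by
  have ht2 : t ≤ 1 / 1000 := by
    refine ht1.trans (by norm_num)
  have ht0 : t ≤ 1 := by linarith
  obtain ⟨H, _, _, _, ρ, ξ, hρ, hξ, hN⟩ := exists_pure φ t ht ht2 hφ π hπ κ hκ
  have h2 : t ^ 2 ≤ 1 / 1000 := by nlinarith
  obtain ⟨V, hV, hVa⟩ := exists_V kap_vec kap_lim φ (t ^ 32) (21 * t ^ 2) (by positivity)
    (pow_le_one₀ ht.le ht0) (by positivity) (by linarith) hφ ρ hρ ξ hξ π hπ κ hκ hN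
  have hd : 1000 * √(t ^ 32 + 21 * t ^ 2) ≤ 5000 * t := by
    have h1 : t ^ 32 + 21 * t ^ 2 ≤ (5 * t) ^ 2 := by
      have := pow_le_pow_of_le_one ht.le ht0 (show 2 ≤ 32 by norm_num)
      nlinarith [pow_pos ht 2]
    have h3 := Real.sqrt_le_sqrt h1
    rw [Real.sqrt_sq (by positivity)] at h3
    linarith
  have hV' : NW V (5000 * t) := by
    refine ⟨fun η ζ h1 h2 => (hV.inner η ζ h1 h2).trans hd, fun k hk => ?_, fun T hT => ?_⟩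
    · obtain ⟨η, h1, h2⟩ := hV.dense k hk
      exact ⟨η, h1, h2.trans hd⟩
    · obtain ⟨S, h1, h2⟩ := hV.op T hT
      exact ⟨S, h1, fun η ζ h3 h4 => (h2 η ζ h3 h4).trans hd⟩
  have hdt : 5000 * t ≤ 1 / 100000 := by
    have : (5000 : ℝ) * (1 / 10 ^ 9) ≤ 1 / 100000 := by norm_num
    linarith
  obtain ⟨U, hU⟩ := near_unitary V (5000 * t) (by positivity) hdt hV'
  have hVn : ∀ η, ‖η‖ ≤ 1 → ‖V η‖ ≤ 2 := by
    intro η hη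
    have h1 := hU η hη
    have h3 : V η = U η - (U η - V η) := by abel
    rw [h3]
    refine (norm_sub_le _ _).trans ?_
    rw [U.norm_map]
    have : (10000 : ℝ) * (5000 * (1 / 10 ^ 9)) ≤ 1 := by norm_num
    linarith
  refine ⟨(U.conjStarAlgEquiv : (H →L[ℂ] H) →⋆ₙₐ[ℂ] (K →L[ℂ] K)).comp ρ, fun a ha => ?_⟩
  refine ContinuousLinearMap.opNorm_le_bound _ (by positivity) fun w => ?_
  -- the estimate for unit vectors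
  have key : ∀ k l : K, ‖k‖ ≤ 1 → ‖l‖ ≤ 1 →
      ‖⟪k, U (ρ a (U.symm l)) - π (φ a) l⟫_ℂ‖ ≤ 2 * 10 ^ 8 * t := by
    intro k l hk hl
    set η := U.symm k with hη
    set ζ := U.symm l with hζ
    have e1 : U η = k := U.apply_symm_apply k
    have e2 : U ζ = l := U.apply_symm_apply l
    have n1 : ‖η‖ ≤ 1 := by rw [hη, U.symm.norm_map]; exact hk
    have n2 : ‖ζ‖ ≤ 1 := by rw [hζ, U.symm.norm_map]; exact hl
    have h1 := (hVa a ha η ζ n1 n2).trans hd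
    have h3 : ⟪k, U (ρ a ζ) - π (φ a) l⟫_ℂ = (⟪η, ρ a ζ⟫_ℂ - ⟪V η, π (φ a) (V ζ)⟫_ℂ) -
        (⟪U η - V η, π (φ a) (U ζ)⟫_ℂ + ⟪V η, π (φ a) (U ζ - V ζ)⟫_ℂ) := by
      rw [← e1, ← e2, inner_sub_right, U.inner_map_map, map_sub, inner_sub_left, inner_sub_right]
      ring
    rw [h3]
    have h4 : ‖⟪U η - V η, π (φ a) (U ζ)⟫_ℂ‖ ≤ 10000 * (5000 * t) := by
      refine (norm_inner_le_norm _ _).trans ?_
      have h5 := rep_le π (φ a) (U ζ)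
      have h6 := hφ.norm a ha
      have h7 : ‖π (φ a) (U ζ)‖ ≤ 1 := by
        refine h5.trans ?_
        rw [U.norm_map]
        nlinarith [norm_nonneg ζ, norm_nonneg (φ a)]
      nlinarith [hU η n1, norm_nonneg (U η - V η), norm_nonneg (π (φ a) (U ζ))]
    have h5 : ‖⟪V η, π (φ a) (U ζ - V ζ)⟫_ℂ‖ ≤ 2 * (10000 * (5000 * t)) := by
      refine (norm_inner_le_norm _ _).trans ?_
      have h6 := rep_le π (φ a) (U ζ - V ζ)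
      have h7 := hφ.norm a ha
      have h8 : ‖π (φ a) (U ζ - V ζ)‖ ≤ 10000 * (5000 * t) := by
        refine h6.trans ?_
        nlinarith [hU ζ n2, norm_nonneg (U ζ - V ζ), norm_nonneg (φ a)]
      nlinarith [hVn η n1, norm_nonneg (V η), norm_nonneg (π (φ a) (U ζ - V ζ))]
    have h6 := norm_sub_le (⟪η, ρ a ζ⟫_ℂ - ⟪V η, π (φ a) (V ζ)⟫_ℂ)
      (⟪U η - V η, π (φ a) (U ζ)⟫_ℂ + ⟪V η, π (φ a) (U ζ - V ζ)⟫_ℂ)
    have h7 := norm_add_le (⟪U η - V η, π (φ a) (U ζ)⟫_ℂ) (⟪V η, π (φ a) (U ζ - V ζ)⟫_ℂ)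
    rw [norm_sub_rev] at h1
    linarith
  -- homogeneity
  have hscale : ∀ w : K, ‖U (ρ a (U.symm w)) - π (φ a) w‖ ≤ 2 * 10 ^ 8 * t * ‖w‖ := by
    intro w
    rcases eq_or_ne w 0 with rfl | hw
    · simp
    · set d := U (ρ a (U.symm w)) - π (φ a) w with hd'
      rcases eq_or_ne d 0 with h0 | h0
      · rw [h0, norm_zero]; positivity
      · have hwp := norm_pos_iff.2 hw
        have hdp := norm_pos_iff.2 h0
        have h1 := key (((‖d‖⁻¹ : ℝ) : ℂ) • d) (((‖w‖⁻¹ : ℝ) : ℂ) • w)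
          (by rw [norm_smul, Complex.norm_real, norm_inv, norm_norm, inv_mul_cancel₀ hdp.ne'])
          (by rw [norm_smul, Complex.norm_real, norm_inv, norm_norm, inv_mul_cancel₀ hwp.ne'])
        have h2 : U (ρ a (U.symm (((‖w‖⁻¹ : ℝ) : ℂ) • w))) - π (φ a) (((‖w‖⁻¹ : ℝ) : ℂ) • w) =
            ((‖w‖⁻¹ : ℝ) : ℂ) • d := by
          rw [map_smul, map_smul, map_smul, map_smul, hd', smul_sub]
        rw [h2, inner_smul_left, inner_smul_right, inner_self_eq_norm_sq_to_K] at h1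
        simp only [Complex.conj_ofReal] at h1
        have h3 : (((‖d‖⁻¹ : ℝ) : ℂ) * (((‖w‖⁻¹ : ℝ) : ℂ) * (‖d‖ : ℂ) ^ 2)) =
            ((‖d‖ * ‖w‖⁻¹ : ℝ) : ℂ) := by
          push_cast
          field_simp
        have h4 : ‖((‖d‖ * ‖w‖⁻¹ : ℝ) : ℂ)‖ ≤ 2 * 10 ^ 8 * t := by
          rw [← h3]; exact h1
        rw [Complex.norm_real, Real.norm_eq_abs, abs_of_nonneg (by positivity)] at h4
        rwa [← div_eq_mul_inv, div_le_iff₀ hwp] at h4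
  exact hscale w

/-- **The main theorem.** -/
theorem main (φ : A → B) (t : ℝ) (ht : 0 < t) (hφ : AI φ (t ^ 32)) :
    ∃ (L : Type u) (_ : NormedAddCommGroup L) (_ : InnerProductSpace ℂ L) (_ : CompleteSpace L)
      (ρA : A →⋆ₙₐ[ℂ] (L →L[ℂ] L)) (ρB : B →⋆ₙₐ[ℂ] (L →L[ℂ] L)), Function.Injective ρA ∧
      Function.Injective ρB ∧ dKK (Set.range ρA) (Set.range ρB) ≤ 10 ^ 9 * t := by
  rcases le_or_gt t (1 / 10 ^ 9) with h1 | h1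
  · have ht0 : t ≤ 1 := h1.trans (by norm_num)
    have h32 : t ^ 32 ≤ t := by
      have := pow_le_pow_of_le_one ht.le ht0 (show 1 ≤ 32 by norm_num)
      rwa [pow_one] at this
    have h9 : (2 : ℝ) * 10 ^ 8 * t ≤ 2 / 10 := by
      have : (2 : ℝ) * 10 ^ 8 * (1 / 10 ^ 9) = 2 / 10 := by norm_num
      nlinarith
    obtain ⟨L, i1, i2, i3, ρA, ρB, h2, h3, h4⟩ := assemble φ (t ^ 32) hφ (2 * 10 ^ 8 * t)
      (by positivity) (by linarith [show (1 : ℝ) / 10 ^ 9 ≤ 1 / 10 by norm_num]) (by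
        intro b hb
        obtain ⟨K, _, _, _, π, hπ, hπb⟩ := exists_irr kap_bic b hb
        obtain ⟨κ, hκ⟩ := exists_unit π b hπb
        obtain ⟨ρ, hρ⟩ := one_rep φ t ht h1 hφ π hπ κ hκ
        exact ⟨K, _, _, _, ρ, π, hπb, hρ⟩)
    refine ⟨L, i1, i2, i3, ρA, ρB, h2, h3, h4.trans ?_⟩
    linarith
  · obtain ⟨L, i1, i2, i3, ρA, ρB, h2, h3, h4⟩ := common A B (fun C _ b hb => by
      obtain ⟨K, i1, i2, i3, π, _, h⟩ := exists_irr kap_bic b hb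
      exact ⟨K, i1, i2, i3, π, h⟩)
    refine ⟨L, i1, i2, i3, ρA, ρB, h2, h3, h4.trans ?_⟩
    have : (10 : ℝ) ^ 9 * (1 / 10 ^ 9) = 1 := by norm_num
    nlinarith

end one

end Pool.Agent.TH387.EI
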