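import Pool.Agent.TH387.EI.Defs
import Pool.Agent.TH89.EI_kap
import Pool.Agent.TH496.EI_Irr
import Pool.Agent.TH558.EI_Exc
import Pool.Agent.TH558.EI_Cpt
import Pool.Agent.TH959.EI_GNS
import Pool.Agent.TH416.EI_FState
import Pool.Agent.TH73.EI_4a
import Pool.Agent.TH897.EI.Q
import Pool.Agent.TH883.EI_ScalarMin
import Pool.Agent.TH748.EI_4b3
import Pool.Agent.TH276.EI_4c
import Pool.Agent.TH81.EI_KapVec
import Pool.Agent.TH720.EI_KapLim
import Pool.Agent.TH320.EI_V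
import Pool.Agent.TH126.EI_Net
import Pool.Agent.TH124.EI_Improve
import Pool.Agent.TH443.EI_finite_dim
import Pool.Agent.TH417.EI_limit
import Pool.Agent.TH417.EI_unitary
import Pool.Agent.TH874.EI_assemble
import Pool.Agent.TH443.EI_common

set_option autoImplicit false

open scoped ComplexOrder InnerProductSpace

noncomputable section

namespace Pool.Agent.TH387.EI

universe u

/-- J6: the abstract theorem -/
theorem near_unitary {H K : Type u} [NormedAddCommGroup H]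
    [InnerProductSpace ℂ H] [CompleteSpace H] [NormedAddCommGroup K] [InnerProductSpace ℂ K]
    [CompleteSpace K] (V : H → K) (δ : ℝ) (hδ : 0 < δ) (hδ1 : δ ≤ 1 / 100000) (hV : NW V δ) :
    ∃ U : H ≃ₗᵢ[ℂ] K, ∀ η, ‖η‖ ≤ 1 → ‖U η - V η‖ ≤ 10000 * δ := by
  have hn : ∀ η, ‖η‖ ≤ 1 → |‖V η‖ ^ 2 - ‖η‖ ^ 2| ≤ δ := by
    intro η hη
    have h1 := hV.inner η η hη hη
    rw [inner_self_eq_norm_sq_to_K, inner_self_eq_norm_sq_to_K] at h1
    have h2 : ((‖V η‖ : ℂ) ^ 2 - (‖η‖ : ℂ) ^ 2) = ((‖V η‖ ^ 2 - ‖η‖ ^ 2 : ℝ) : ℂ) := by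
      push_cast; ring
    have h3 : ‖((‖V η‖ ^ 2 - ‖η‖ ^ 2 : ℝ) : ℂ)‖ ≤ δ := by
      rw [← h2]; exact h1
    rwa [Complex.norm_real, Real.norm_eq_abs] at h3
  have hV2 : ∀ η, ‖η‖ ≤ 1 → ‖V η‖ ≤ 2 := by
    intro η hη
    have h1 := abs_le.1 (hn η hη)
    have h2 := norm_nonneg (V η)
    have h3 := norm_nonneg η
    nlinarith
  obtain ⟨W, hW⟩ := limit_op V (2000 * δ) hV2 (fun P _ =>
    finite_dim V δ hδ hδ1 hV (fun P' _ W₀ h => improve exists_net V δ hδ hδ1 hV P' W₀ h) P)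
  obtain ⟨U, hU⟩ := unitary_near W (2002 * δ) (by linarith) (by linarith) (by
    intro η hη
    have h1 := hn η hη.le
    rw [hη] at h1
    have h2 := hW η hη.le
    have h3 := abs_norm_sub_norm_le (W η) (V η)
    have h4 : |‖V η‖ - 1| ≤ δ := by
      have h5 := norm_nonneg (V η)
      have h6 := abs_le.1 h1
      rw [abs_le]
      constructor
      · nlinarith
      · nlinarith
    have h7 : ‖W η‖ - 1 = (‖W η‖ - ‖V η‖) + (‖V η‖ - 1) := by ring
    rw [h7]
    have := abs_add_le (‖W η‖ - ‖V η‖) (‖V η‖ - 1)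
    linarith) (by
    intro k hk
    obtain ⟨η, h1, h2⟩ := hV.dense k hk.le
    refine ⟨η, ?_⟩
    have h3 := hW η h1
    have h4 : W η - k = (W η - V η) + (V η - k) := by abel
    rw [h4]
    have := norm_add_le (W η - V η) (V η - k)
    linarith)
  refine ⟨U, fun η hη => ?_⟩
  have h1 := hU η hη
  have h2 := hW η hη
  have h4 : U η - V η = (U η - W η) + (W η - V η) := by abel
  rw [h4]
  have := norm_add_le (U η - W η) (W η - V η)
  linarith

end Pool.Agent.TH387.EI
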